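import Pool.Agent.K9h84.PC.Dual

/-! Generic families: for a regular uncountable cardinal `μ` below the density of a uniformly
convex space there is a family of unit vectors, with a `μ`-complete filter on the index set, such
that every functional vanishes at eventually all of its vectors. -/

namespace Pool.Agent.K9h84.PC

open Filter Topology Set Cardinal

universe u

variable {E : Type u} [NormedAddCommGroup E] [NormedSpace ℝ E] {q : Seminorm ℝ E} {c C : ℝ}

/-- a small set of functionals has a common zero on the unit sphere -/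
lemma exists_common_zero [CompleteSpace E] (hq : UCNorm q c C) {κ : Cardinal.{u}} (hκ : ℵ₀ < κ)
    (hD : ∀ D : Set E, Dense D → κ ≤ #D) (N : Set (E →L[ℝ] ℝ)) (hN : #N < κ) :
    ∃ s : E, ‖s‖ = 1 ∧ ∀ f ∈ N, f s = 0 := by
  classical
  by_contra hcon
  push Not at hcon
  have hsep : ∀ x : E, (∀ f ∈ N, f x = 0) → x = 0 := by
    intro x hx
    by_contra h0
    obtain ⟨f, hf, hfx⟩ := hcon ((1 / ‖x‖) • x) (by
      rw [norm_smul, Real.norm_eq_abs, abs_of_nonneg (by positivity), one_div_mul_cancel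
        (norm_ne_zero_iff.2 h0)])
    rw [map_smul, hx f hf, smul_zero] at hfx
    exact hfx rfl
  let L : (N →₀ ℚ) → (E →L[ℝ] ℝ) := fun l => l.sum fun f r => (r:ℝ) • (f : E →L[ℝ] ℝ)
  have hLadd : ∀ l l' : N →₀ ℚ, L (l + l') = L l + L l' := by
    intro l l'
    exact Finsupp.sum_add_index (by simp) (by intro a _ b₁ b₂; push_cast; rw [add_smul])
  have hLsmul : ∀ (r : ℚ) (l : N →₀ ℚ), L (r • l) = (r:ℝ) • L l := by
    intro r l
    simp only [L]
    rw [Finsupp.sum_smul_index (by simp), Finsupp.smul_sum]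
    congr 1
    ext f s
    push_cast
    rw [mul_smul]
  have hex : ∀ (g : E →L[ℝ] ℝ) (n : ℕ), ∃ y, q y ≤ 1 ∧ dn q g - 1 / ((n:ℝ) + 1) < g y :=
    fun g n => exists_dn g (by positivity)
  choose j hj1 hj2 using hex
  have hcl := mem_closure_of_sep hq (Set.range L) ⟨0, by simp [L]⟩ (by
    rintro _ ⟨l, rfl⟩ _ ⟨l', rfl⟩ r s
    exact ⟨r • l + s • l', by rw [hLadd, hLsmul, hLsmul]⟩) (by
    intro x hx
    apply hsep
    intro f hf
    have := hx (L (Finsupp.single ⟨f, hf⟩ 1)) ⟨_, rfl⟩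
    simpa [L] using this) j hj1 hj2
  set Z : Set E := {y | ∃ r : ℚ, ∃ g ∈ Set.range L, ∃ n : ℕ, y = (r:ℝ) • j g n} with hZ
  have hZd : Dense Z := fun x => hcl x
  have h1 : #Z ≤ #(ℚ × (N →₀ ℚ) × ℕ) := by
    have h2 : Z ⊆ Set.range fun p : ℚ × (N →₀ ℚ) × ℕ => (p.1:ℝ) • j (L p.2.1) p.2.2 := by
      rintro _ ⟨r, _, ⟨l, rfl⟩, n, rfl⟩
      exact ⟨(r, l, n), rfl⟩
    exact (mk_le_mk_of_subset h2).trans mk_range_le
  have h3 : #(N →₀ ℚ) < κ := by
    rcases isEmpty_or_nonempty N with h | h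
    · have : #(N →₀ ℚ) = 1 := by
        rw [Cardinal.eq_one_iff_unique]
        exact ⟨inferInstance, inferInstance⟩
      rw [this]
      exact one_lt_aleph0.trans hκ
    · rw [mk_finsupp_lift_of_infinite']
      simp only [lift_uzero, Cardinal.mkRat, lift_aleph0]
      rw [max_lt_iff]
      exact ⟨hN, hκ⟩
  have h4 : #(ℚ × (N →₀ ℚ) × ℕ) < κ := by
    simp only [mk_prod, lift_uzero, Cardinal.mkRat, lift_aleph0, mk_nat]
    exact mul_lt_of_lt hκ.le hκ (mul_lt_of_lt hκ.le h3 hκ)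
  exact absurd (hD Z hZd) (not_le.2 (h1.trans_lt h4))

/-- the index type of the generic family -/
def Idx (E : Type u) [NormedAddCommGroup E] [NormedSpace ℝ E] (μ : Cardinal.{u}) : Type u :=
  {N : Set (E →L[ℝ] ℝ) // #N < μ}

/-- the filter generated by the cones -/
def coneFilter (E : Type u) [NormedAddCommGroup E] [NormedSpace ℝ E] {μ : Cardinal.{u}}
    (hμ : μ.IsRegular) : Filter (Idx E μ) where
  sets := {S | ∃ N : Idx E μ, ∀ M : Idx E μ, N.1 ⊆ M.1 → M ∈ S}
  univ_sets := ⟨⟨∅, by simpa using hμ.pos⟩, fun _ _ => mem_univ _⟩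
  sets_of_superset := by
    rintro S T ⟨N, hN⟩ hST
    exact ⟨N, fun M hM => hST (hN M hM)⟩
  inter_sets := by
    rintro S T ⟨N, hN⟩ ⟨N', hN'⟩
    refine ⟨⟨N.1 ∪ N'.1, (mk_union_le _ _).trans_lt (add_lt_of_lt hμ.aleph0_le N.2 N'.2)⟩,
      fun M hM => ⟨hN M (subset_union_left.trans hM), hN' M (subset_union_right.trans hM)⟩⟩

lemma mem_coneFilter {μ : Cardinal.{u}} (hμ : μ.IsRegular) {S : Set (Idx E μ)} :
    S ∈ coneFilter E hμ ↔ ∃ N : Idx E μ, ∀ M : Idx E μ, N.1 ⊆ M.1 → M ∈ S := Iff.rfl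

lemma coneFilter_neBot {μ : Cardinal.{u}} (hμ : μ.IsRegular) : (coneFilter E hμ).NeBot := by
  rw [← empty_mem_iff_bot.not.trans neBot_iff.symm] 
  rintro ⟨N, hN⟩
  exact hN N subset_rfl

lemma coneFilter_compl {μ : Cardinal.{u}} (hμ : μ.IsRegular) :
    CardinalInterFilter (coneFilter E hμ) μ where
  cardinal_sInter_mem := by
    intro S hS hmem
    haveI : Nonempty (Idx E μ) := ⟨⟨∅, by simpa using hμ.pos⟩⟩
    choose! N hN using fun s hs => (mem_coneFilter hμ).1 (hmem s hs)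
    refine ⟨⟨⋃ s ∈ S, (N s).1, ?_⟩, fun M hM s hs => hN s hs M ?_⟩
    · rw [card_biUnion_lt_iff_forall_of_isRegular hμ hS]
      exact fun s _ => (N s).2
    · exact (subset_biUnion_of_mem (u := fun s => (N s).1) hs).trans hM

/-- norming functionals for `q` -/
lemma exists_norming (hq : UCNorm q c C) (u : E) : ∃ f : E →L[ℝ] ℝ, f u = q u ∧ ∀ x, f x ≤ q x := by
  by_cases hu : u = 0
  · refine ⟨0, by simp [hu], fun x => ?_⟩
    simpa using apply_nonneg q x
  obtain ⟨g, hg1, hg2⟩ := exists_extension_of_le_sublinear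
    (LinearPMap.mkSpanSingleton (K := ℝ) u (q u) hu) q
    (by
      intro r hr x
      rw [map_smul_eq_mul, Real.norm_eq_abs, abs_of_pos hr])
    (map_add_le_add q)
    (by
      rintro ⟨x, hx⟩
      obtain ⟨r, rfl⟩ := Submodule.mem_span_singleton.1 hx
      have e : (LinearPMap.mkSpanSingleton (K := ℝ) u (q u) hu) ⟨r • u, hx⟩ = r • q u :=
        LinearPMap.mkSpanSingleton'_apply _ _ _ _ _
      rw [e]
      change r • q u ≤ q (r • u)
      rw [map_smul_eq_mul, smul_eq_mul, Real.norm_eq_abs]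
      exact mul_le_mul_of_nonneg_right (le_abs_self r) (apply_nonneg q u))
  refine ⟨g.mkContinuous C ?_, ?_, fun x => hg2 x⟩
  · intro x
    rw [Real.norm_eq_abs, abs_le]
    have h1 := (hg2 x).trans (hq.up x)
    have h2 := (hg2 (-x)).trans (hq.up (-x))
    rw [map_neg, norm_neg] at h2
    constructor <;> linarith
  · have h1 := hg1 ⟨u, Submodule.mem_span_singleton_self u⟩
    rw [LinearPMap.mkSpanSingleton_apply] at h1
    exact h1

end Pool.Agent.K9h84.PC
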