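import Mathlib

/-! A small set of functionals on a uniformly convex space of large density has a common zero. -/

namespace Pool.Agent.K9h84.PC

open Filter Topology Set Cardinal

universe u

/-- `q` is an equivalent uniformly convex norm. -/
structure UCNorm {E : Type u} [NormedAddCommGroup E] [NormedSpace ℝ E] (q : Seminorm ℝ E)
    (c C : ℝ) : Prop where
  cpos : 0 < c
  low : ∀ x, c * ‖x‖ ≤ q x
  up : ∀ x, q x ≤ C * ‖x‖
  uc : ∀ ε : ℝ, 0 < ε → ∃ δ : ℝ, 0 < δ ∧ ∀ x y, q x ≤ 1 → q y ≤ 1 → ε ≤ q (x - y) →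
      q ((1/2:ℝ) • (x + y)) ≤ 1 - δ

variable {E : Type u} [NormedAddCommGroup E] [NormedSpace ℝ E] {q : Seminorm ℝ E} {c C : ℝ}

/-- dual norm of `q` -/
noncomputable def dn (q : Seminorm ℝ E) (g : E →L[ℝ] ℝ) : ℝ := sSup (g '' {x | q x ≤ 1})

lemma dn_bdd (hq : UCNorm q c C) (g : E →L[ℝ] ℝ) : BddAbove (g '' {x | q x ≤ 1}) := by
  refine ⟨‖g‖ * (1 / c), ?_⟩
  rintro _ ⟨x, hx, rfl⟩
  have h1 : ‖x‖ ≤ 1 / c := by
    rw [le_div_iff₀ hq.cpos, mul_comm]
    exact (hq.low x).trans hx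
  calc g x ≤ ‖g x‖ := le_abs_self _
    _ ≤ ‖g‖ * ‖x‖ := g.le_opNorm x
    _ ≤ ‖g‖ * (1 / c) := mul_le_mul_of_nonneg_left h1 (norm_nonneg _)

lemma le_dn (hq : UCNorm q c C) (g : E →L[ℝ] ℝ) {x : E} (hx : q x ≤ 1) : g x ≤ dn q g :=
  le_csSup (dn_bdd hq g) ⟨x, hx, rfl⟩

lemma dn_nonneg (hq : UCNorm q c C) (g : E →L[ℝ] ℝ) : 0 ≤ dn q g := by
  have := le_dn hq g (x := 0) (by simp)
  simpa using this

lemma exists_dn (g : E →L[ℝ] ℝ) {ε : ℝ} (hε : 0 < ε) : ∃ x, q x ≤ 1 ∧ dn q g - ε < g x := by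
  obtain ⟨_, ⟨x, hx, rfl⟩, h⟩ := exists_lt_of_lt_csSup (s := g '' {x | q x ≤ 1})
    ⟨_, 0, by simp, rfl⟩ (sub_lt_self (dn q g) hε)
  exact ⟨x, hx, h⟩

lemma q_eq_zero (hq : UCNorm q c C) {x : E} (h : q x = 0) : x = 0 := by
  have h1 := hq.low x
  rw [h] at h1
  have h2 : ‖x‖ ≤ 0 := by
    by_contra hcon
    push Not at hcon
    have := mul_pos hq.cpos hcon
    linarith
  exact norm_le_zero_iff.1 h2

lemma le_dn_mul (hq : UCNorm q c C) (g : E →L[ℝ] ℝ) (x : E) : g x ≤ dn q g * q x := by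
  rcases eq_or_lt_of_le (apply_nonneg q x) with h | h
  · rw [← h, q_eq_zero hq h.symm]
    simp
  · have h1 := le_dn hq g (x := (1 / q x) • x) (by
      rw [map_smul_eq_mul, Real.norm_eq_abs, abs_of_pos (by positivity),
        one_div_mul_cancel h.ne'])
    rw [map_smul, smul_eq_mul, one_div_mul_eq_div, div_le_iff₀ h] at h1
    exact h1

lemma dn_le (hq : UCNorm q c C) {g : E →L[ℝ] ℝ} {a : ℝ} (h : ∀ x, q x ≤ 1 → g x ≤ a) :
    dn q g ≤ a := by
  refine csSup_le ⟨_, 0, by simp, rfl⟩ ?_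
  rintro _ ⟨x, hx, rfl⟩
  exact h x hx

/-- uniform convexity and functionals -/
lemma uc_dual (hq : UCNorm q c C) {ε : ℝ} (hε : 0 < ε) : ∃ δ : ℝ, 0 < δ ∧
    ∀ (g : E →L[ℝ] ℝ) (z w : E), dn q g ≤ 1 → q z ≤ 1 → q w ≤ 1 → 1 - δ < g z → 1 - δ < g w →
      q (z - w) < ε := by
  obtain ⟨δ, hδ, h⟩ := hq.uc ε hε
  refine ⟨δ, hδ, fun g z w hg hz hw h1 h2 => ?_⟩
  by_contra hcon
  push Not at hcon
  have h3 := h z w hz hw hcon
  have h4 := le_dn_mul hq g ((1/2:ℝ) • (z + w))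
  rw [map_smul, map_add, smul_eq_mul] at h4
  have h5 : dn q g * q ((1/2:ℝ) • (z + w)) ≤ 1 * q ((1/2:ℝ) • (z + w)) :=
    mul_le_mul_of_nonneg_right hg (apply_nonneg _ _)
  linarith


lemma dn_smul (hq : UCNorm q c C) (g : E →L[ℝ] ℝ) {r : ℝ} (hr : 0 ≤ r) :
    dn q (r • g) ≤ r * dn q g :=
  dn_le hq fun x hx => by
    rw [ContinuousLinearMap.smul_apply, smul_eq_mul]
    exact mul_le_mul_of_nonneg_left (le_dn hq g hx) hr

lemma dn_pos_of (hq : UCNorm q c C) (g : E →L[ℝ] ℝ) {x : E} (h : 0 < g x) : 0 < dn q g := by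
  have h1 := le_dn_mul hq g x
  have h2 := dn_nonneg hq g
  rcases eq_or_lt_of_le h2 with h3 | h3
  · rw [← h3] at h1
    linarith
  · exact h3

/-- every point is a limit of multiples of approximate maximisers of functionals in `G` -/
lemma mem_closure_of_sep [CompleteSpace E] (hq : UCNorm q c C) (G : Set (E →L[ℝ] ℝ))
    (hG0 : (0 : E →L[ℝ] ℝ) ∈ G)
    (hG1 : ∀ f ∈ G, ∀ g ∈ G, ∀ r s : ℚ, (r:ℝ) • f + (s:ℝ) • g ∈ G)
    (hG2 : ∀ x : E, (∀ g ∈ G, g x = 0) → x = 0)
    (j : (E →L[ℝ] ℝ) → ℕ → E) (hj1 : ∀ g n, q (j g n) ≤ 1)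
    (hj2 : ∀ g n, dn q g - 1 / (n + 1) < g (j g n)) (x : E) :
    x ∈ closure {y | ∃ r : ℚ, ∃ g ∈ G, ∃ n : ℕ, y = (r:ℝ) • j g n} := by
  have hGr : ∀ g ∈ G, ∀ r : ℚ, (r:ℝ) • g ∈ G := by
    intro g hg r
    have := hG1 g hg g hg r 0
    simpa using this
  by_cases hx0 : x = 0
  · subst hx0
    exact subset_closure ⟨0, 0, hG0, 0, by simp⟩
  -- the supremum
  set S : Set ℝ := {r | ∃ g ∈ G, dn q g ≤ 1 ∧ r = g x} with hS
  have hSb : BddAbove S := by
    refine ⟨q x, ?_⟩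
    rintro _ ⟨g, -, hg, rfl⟩
    have h1 := le_dn_mul hq g x
    have h2 := mul_le_mul_of_nonneg_right hg (apply_nonneg q x)
    linarith
  have hSn : S.Nonempty := ⟨0, 0, hG0, dn_le hq (by simp), by simp⟩
  set a : ℝ := sSup S with ha
  have hale : ∀ g ∈ G, g x ≤ a * dn q g := by
    intro g hg
    have h0 := dn_nonneg hq g
    refine le_of_forall_pos_lt_add fun ε hε => ?_
    have ha0 : 0 ≤ a := le_csSup hSb ⟨0, hG0, dn_le hq (by simp), by simp⟩
    obtain ⟨r, hr1, hr2⟩ := exists_rat_btwn (show dn q g < dn q g + ε / (a + 1) by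
      have : 0 < ε / (a + 1) := by positivity
      linarith)
    have hr0 : (0:ℝ) < r := lt_of_le_of_lt h0 hr1
    have h1 : ((r⁻¹ : ℚ) : ℝ) • g ∈ G := hGr g hg _
    have h2 : dn q (((r⁻¹ : ℚ) : ℝ) • g) ≤ 1 := by
      push_cast
      refine (dn_smul hq g (by positivity)).trans ?_
      rw [inv_mul_le_iff₀ hr0]
      linarith
    have h3 := le_csSup hSb ⟨_, h1, h2, rfl⟩
    rw [← ha] at h3
    have h3' : (r:ℝ)⁻¹ * g x ≤ a := by
      have e : (((r⁻¹ : ℚ) : ℝ) • g) x = (r:ℝ)⁻¹ * g x := by simp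
      rw [← e]
      exact h3
    rw [inv_mul_le_iff₀ hr0] at h3'
    have h4 : (r:ℝ) * a ≤ (dn q g + ε / (a + 1)) * a := mul_le_mul_of_nonneg_right hr2.le ha0
    have h5 : ε / (a + 1) * a < ε := by
      rw [div_mul_eq_mul_div, div_lt_iff₀ (by linarith)]
      nlinarith
    nlinarith
  have hapos : 0 < a := by
    obtain ⟨g, hg, hgx⟩ : ∃ g ∈ G, g x ≠ 0 := by
      by_contra hcon
      push Not at hcon
      exact hx0 (hG2 x hcon)
    have key : ∀ g ∈ G, 0 < g x → 0 < a := by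
      intro g hg h
      have h1 := hale g hg
      have h2 := dn_nonneg hq g
      by_contra hcon
      push Not at hcon
      nlinarith
    rcases lt_or_gt_of_ne hgx with h | h
    · refine key _ (hGr g hg (-1)) ?_
      simpa using h
    · exact key g hg h
  -- the sequence
  have hex : ∀ k : ℕ, ∃ g ∈ G, dn q g ≤ 1 ∧ a - a / (k + 1) < g x := by
    intro k
    obtain ⟨_, ⟨g, hg, hg1, rfl⟩, h⟩ := exists_lt_of_lt_csSup hSn
      (show a - a / ((k:ℝ) + 1) < sSup S by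
        rw [← ha]
        have : 0 < a / ((k:ℝ) + 1) := by positivity
        linarith)
    exact ⟨g, hg, hg1, h⟩
  choose g hgG hg1 hgx using hex
  have hgn : ∀ k : ℕ, 1 - 1 / ((k:ℝ) + 1) < dn q (g k) := by
    intro k
    have h1 := hale (g k) (hgG k)
    have h2 := hgx k
    have h3 : a - a / ((k:ℝ) + 1) = a * (1 - 1 / ((k:ℝ) + 1)) := by ring
    rw [h3] at h2
    exact lt_of_mul_lt_mul_left (h2.trans_le h1) hapos.le
  set z : ℕ → E := fun k => j (g k) k with hz
  have hzk : ∀ k : ℕ, 1 - 2 / ((k:ℝ) + 1) < g k (z k) := by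
    intro k
    have h1 := hj2 (g k) k
    have h2 := hgn k
    have h3 : (2:ℝ) / ((k:ℝ) + 1) = 1 / ((k:ℝ) + 1) + 1 / ((k:ℝ) + 1) := by ring
    rw [h3]
    simp only [hz]
    linarith
  have htend : Tendsto (fun k : ℕ => (1:ℝ) / ((k:ℝ) + 1)) atTop (𝓝 0) :=
    tendsto_one_div_add_atTop_nhds_zero_nat
  have hcauchy : CauchySeq z := by
    rw [Metric.cauchySeq_iff]
    intro ε hε
    have hc := hq.cpos
    obtain ⟨δ, hδ, hU⟩ := uc_dual hq (show 0 < c * ε / 2 by positivity)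
    obtain ⟨K, hK⟩ := (htend.eventually (gt_mem_nhds (show 0 < δ / 4 by positivity))).exists
    have hmon : ∀ k : ℕ, K ≤ k → (1:ℝ) / ((k:ℝ) + 1) ≤ 1 / ((K:ℝ) + 1) := by
      intro k hk
      apply one_div_le_one_div_of_le (by positivity)
      have : (K:ℝ) ≤ k := by exact_mod_cast hk
      linarith
    refine ⟨K, fun m hm n hn => ?_⟩
    set h : E →L[ℝ] ℝ := (((1/2 : ℚ)) : ℝ) • g m + (((1/2 : ℚ)) : ℝ) • g n with hh
    have hhG : h ∈ G := hG1 _ (hgG m) _ (hgG n) _ _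
    have hhv : ∀ y, h y = (1/2) * g m y + (1/2) * g n y := by
      intro y
      simp [hh]
    have h1 := hale h hhG
    have h2 : a * (1 - 1 / ((K:ℝ) + 1)) < h x := by
      rw [hhv]
      have e1 := hgx m
      have e2 := hgx n
      have e3 := mul_le_mul_of_nonneg_left (hmon m hm) hapos.le
      have e4 := mul_le_mul_of_nonneg_left (hmon n hn) hapos.le
      have e5 : ∀ t : ℝ, a / t = a * (1 / t) := fun t => by ring
      rw [e5] at e1 e2
      linarith
    have h3 : 1 - 1 / ((K:ℝ) + 1) < dn q h := lt_of_mul_lt_mul_left (h2.trans_le h1) hapos.le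
    obtain ⟨w, hw1, hw2⟩ := exists_dn (q := q) h (show 0 < δ / 4 by positivity)
    rw [hhv] at hw2
    have hwm := le_dn hq (g m) hw1
    have hwn := le_dn hq (g n) hw1
    have hm1 := hg1 m
    have hn1 := hg1 n
    have e6 := hmon m hm
    have e7 := hmon n hn
    have e8 : ∀ t : ℝ, 2 / t = 2 * (1 / t) := fun t => by ring
    have hzm := hzk m
    have hzn := hzk n
    rw [e8] at hzm hzn
    have d1 := hU (g m) w (z m) hm1 hw1 (hj1 _ _) (by linarith) (by linarith)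
    have d2 := hU (g n) w (z n) hn1 hw1 (hj1 _ _) (by linarith) (by linarith)
    rw [dist_eq_norm]
    have d3 : q (z m - z n) < c * ε := by
      have e9 : z m - z n = (w - z n) - (w - z m) := by abel
      rw [e9]
      have := map_sub_le_add q (w - z n) (w - z m)
      linarith
    have d4 := hq.low (z m - z n)
    exact lt_of_mul_lt_mul_left (d4.trans_lt d3) hc.le
  obtain ⟨z0, hz0⟩ := cauchySeq_tendsto_of_complete hcauchy
  -- the functional identity
  have hfun : ∀ f ∈ G, f x ≤ a * f z0 := by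
    intro f hf
    set B : ℝ := max (dn q f) (dn q (-f)) + 1 with hB
    have hBpos : 0 < B := by
      have := dn_nonneg hq f
      have := le_max_left (dn q f) (dn q (-f))
      linarith
    have hfB : ∀ y, |f y| ≤ B * q y := by
      intro y
      rw [abs_le]
      have h1 := le_dn_mul hq f y
      have h2 := le_dn_mul hq (-f) y
      rw [ContinuousLinearMap.neg_apply] at h2
      have h3 := apply_nonneg q y
      have h4 : dn q f * q y ≤ B * q y := mul_le_mul_of_nonneg_right (by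
        have := le_max_left (dn q f) (dn q (-f)); linarith) h3
      have h5 : dn q (-f) * q y ≤ B * q y := mul_le_mul_of_nonneg_right (by
        have := le_max_right (dn q f) (dn q (-f)); linarith) h3
      constructor <;> linarith
    -- enough: for all ε
    refine le_of_forall_pos_lt_add fun ε0 hε0 => ?_
    set ε : ℝ := ε0 / (4 * a * B) with hε
    have hεpos : 0 < ε := by positivity
    obtain ⟨δ, hδ, hU⟩ := uc_dual hq hεpos
    obtain ⟨t, ht0, ht1⟩ := exists_rat_btwn (show (0:ℝ) < min (min 1 (δ / (4 * (2 * B + 1))))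
      (ε0 / (4 * a)) by positivity)
    have ht2 : (t:ℝ) < 1 := ht1.trans_le ((min_le_left _ _).trans (min_le_left _ _))
    have ht3 : (t:ℝ) < δ / (4 * (2 * B + 1)) := ht1.trans_le ((min_le_left _ _).trans (min_le_right _ _))
    have ht4 : (t:ℝ) < ε0 / (4 * a) := ht1.trans_le (min_le_right _ _)
    have ht3' : (t:ℝ) * (2 * B + 1) < δ / 4 := by
      rw [lt_div_iff₀ (by positivity)] at ht3
      linarith
    have ht4' : a * (t:ℝ) < ε0 / 4 := by
      rw [lt_div_iff₀ (by positivity)] at ht4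
      linarith
    -- for large k
    have hk : ∀ᶠ k : ℕ in atTop, a - a * (1 / ((k:ℝ) + 1)) + t * f x ≤
        a * (1 + t ^ 2 + t * (f (z k) + B * ε)) := by
      filter_upwards [htend.eventually (gt_mem_nhds (show 0 < δ / 8 by positivity))] with k hk
      have hmem : (((1:ℚ)):ℝ) • g k + (t:ℝ) • f ∈ G := hG1 _ (hgG k) _ hf 1 t
      set h : E →L[ℝ] ℝ := (((1:ℚ)):ℝ) • g k + (t:ℝ) • f with hh
      have hhv : ∀ y, h y = g k y + t * f y := by
        intro y
        simp [hh]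
      have h1 := hale h hmem
      obtain ⟨w, hw1, hw2⟩ := exists_dn (q := q) h (show 0 < (t:ℝ) ^ 2 by positivity)
      have h2 := le_dn hq h (hj1 (g k) k)
      change h (z k) ≤ _ at h2
      rw [hhv] at h2 hw2
      rw [hhv] at h1
      have hz1 : q (z k) ≤ 1 := hj1 _ _
      have f1 : |f (z k)| ≤ B := (hfB _).trans (by nlinarith)
      have f2 : |f w| ≤ B := (hfB _).trans (by nlinarith)
      have f1' := abs_le.1 f1
      have f2' := abs_le.1 f2
      have t1 : (t:ℝ) * f (z k) ≥ -(t * B) := by nlinarith [f1'.1]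
      have t2 : (t:ℝ) * f w ≤ t * B := by nlinarith [f2'.2]
      have hzk' := hzk k
      have e8 : (2:ℝ) / ((k:ℝ) + 1) = 2 * (1 / ((k:ℝ) + 1)) := by ring
      rw [e8] at hzk'
      have tsq : (t:ℝ) ^ 2 ≤ t := by nlinarith
      have hgw : 1 - δ < g k w := by nlinarith
      have hgz : 1 - δ < g k (z k) := by linarith
      have hd := hU (g k) w (z k) (hg1 k) hw1 hz1 hgw hgz
      have hfw : f w ≤ f (z k) + B * ε := by
        have e1 := hfB (w - z k)
        rw [map_sub] at e1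
        have e2 := (abs_le.1 e1).2
        have e3 : B * q (w - z k) ≤ B * ε := mul_le_mul_of_nonneg_left hd.le hBpos.le
        linarith
      have hgw1 : g k w ≤ 1 := (le_dn hq (g k) hw1).trans (hg1 k)
      have h5 : dn q h ≤ 1 + t ^ 2 + t * (f (z k) + B * ε) := by nlinarith
      have h6 := mul_le_mul_of_nonneg_left h5 hapos.le
      have h7 := hgx k
      have e9 : a / ((k:ℝ) + 1) = a * (1 / ((k:ℝ) + 1)) := by ring
      rw [e9] at h7
      linarith
    have hl1 : Tendsto (fun k : ℕ => a - a * (1 / ((k:ℝ) + 1)) + t * f x) atTop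
        (𝓝 (a - a * 0 + t * f x)) := (tendsto_const_nhds.sub (htend.const_mul a)).add_const _
    have hl2 : Tendsto (fun k : ℕ => a * (1 + (t:ℝ) ^ 2 + t * (f (z k) + B * ε))) atTop
        (𝓝 (a * (1 + (t:ℝ) ^ 2 + t * (f z0 + B * ε)))) := by
      refine Tendsto.const_mul a (Tendsto.const_add _ (Tendsto.const_mul _ (Tendsto.add_const _ ?_)))
      exact (f.continuous.tendsto z0).comp hz0
    have hle := le_of_tendsto_of_tendsto hl1 hl2 hk
    have h8 : (t:ℝ) * f x ≤ t * (a * t + a * f z0 + a * (B * ε)) := by nlinarith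
    have h9 : f x ≤ a * t + a * f z0 + a * (B * ε) := le_of_mul_le_mul_left h8 ht0
    have h10 : a * (B * ε) = ε0 / 4 := by
      rw [hε]
      field_simp
    linarith
  have hfun2 : ∀ f ∈ G, f (x - a • z0) = 0 := by
    intro f hf
    have h1 := hfun f hf
    have h2 := hfun _ (hGr f hf (-1))
    have e1 : ∀ y, ((((-1:ℚ)):ℝ) • f) y = - f y := by
      intro y
      simp
    rw [e1, e1] at h2
    rw [map_sub, map_smul, smul_eq_mul]
    linarith
  have hxz : x = a • z0 := sub_eq_zero.1 (hG2 _ hfun2)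
  rw [hxz]
  have hcl : ∀ k, a • z k ∈ closure {y | ∃ r : ℚ, ∃ g ∈ G, ∃ n : ℕ, y = (r:ℝ) • j g n} := by
    intro k
    have hdr := Rat.isDenseEmbedding_coe_real.dense a
    have hc : Continuous fun r : ℝ => r • z k := continuous_id.smul continuous_const
    have h1 : (fun r : ℝ => r • z k) a ∈ (fun r : ℝ => r • z k) '' closure (Set.range ((↑) : ℚ → ℝ)) :=
      ⟨a, hdr, rfl⟩
    refine closure_mono ?_ (image_closure_subset_closure_image hc h1)
    rintro _ ⟨_, ⟨r, rfl⟩, rfl⟩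
    exact ⟨r, g k, hgG k, k, rfl⟩
  exact isClosed_closure.mem_of_tendsto (hz0.const_smul a) (Eventually.of_forall hcl)

end Pool.Agent.K9h84.PC
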