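import Pool.Agent.K9h84.PC.Base

/-! Growing families and their levels. -/

namespace Pool.Agent.K9h84.PC

open Filter Topology Set Cardinal

universe u

variable {E : Type u} [NormedAddCommGroup E] [NormedSpace ℝ E] {q : Seminorm ℝ E} {c C : ℝ}

/-- growth property of a family -/
def Growing (q : Seminorm ℝ E) (Φ : ℝ → ℝ) (k : ℕ) {ι : Type u} (l : Filter ι) (g : ι → E) :
    Prop :=
  (∀ (u : E) (t : ℝ), ∀ᶠ i in l, q u ≤ q (u + t • g i)) ∧
  (∀ (u : E) (t : ℝ), |t| = 1/2 → ∀ᶠ i in l, Φ (q u) ≤ q (u + t • g i)) ∧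
  (∀ (u : E) (t : ℝ), |t| = 1 → ∀ᶠ i in l, Φ^[k+1] (q u) ≤ q (u + t • g i))

/-- there is a `μ`-complete family of level `k` -/
def Lev (q : Seminorm ℝ E) (Φ : ℝ → ℝ) (e : ℝ) (k : ℕ) (μ : Cardinal.{u}) : Prop :=
  ∃ (ι : Type u) (l : Filter ι) (Y : E) (g : ι → E), l.NeBot ∧ CardinalInterFilter l μ ∧
    (∀ᶠ i in l, ‖Y + g i‖ < 2 * (1 + e) ^ k) ∧ Growing q Φ k l g

lemma curry_complete {ι ι' : Type u} {l : Filter ι} {l' : Filter ι'} {μ : Cardinal.{u}}
    (h : CardinalInterFilter l μ) (h' : CardinalInterFilter l' μ) :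
    CardinalInterFilter (l.curry l') μ where
  cardinal_sInter_mem := by
    intro S hS hmem
    have h1 : ∀ᶠ i in l, ∀ s (_ : s ∈ S), ∀ᶠ i' in l', (i, i') ∈ s :=
      (eventually_cardinal_ball hS).2 fun s hs => (hmem s hs : ∀ᶠ i in l, ∀ᶠ i' in l', (i, i') ∈ s)
    change ∀ᶠ i in l, ∀ᶠ i' in l', (i, i') ∈ ⋂₀ S
    filter_upwards [h1] with i hi
    exact (eventually_cardinal_ball hS).2 hi

lemma Lev.step {Φ : ℝ → ℝ} (hΦ : Monotone Φ) {e : ℝ} {k : ℕ} {μ : Cardinal.{u}}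
    {ι ι' : Type u} {l : Filter ι} {l' : Filter ι'} {Y Y' : E} {g : ι → E} {g' : ι' → E}
    (hc : CardinalInterFilter l μ) (hc' : CardinalInterFilter l' μ)
    (hg : Growing q Φ k l g) (hg' : Growing q Φ k l' g') (y : E) (σ : ℝ) (hσ : |σ| = 1)
    (hbad : ∃ᶠ i in l, ∃ᶠ i' in l',
      ‖y + (1/2:ℝ) • (Y + g i) + σ • (Y' + g' i')‖ < 2 * (1 + e) ^ (k + 1)) :
    Lev q Φ e (k + 1) μ := by
  have hcc := curry_complete hc hc'
  set B : Set (ι × ι') := {p | ‖y + (1/2:ℝ) • (Y + g p.1) + σ • (Y' + g' p.2)‖ <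
    2 * (1 + e) ^ (k + 1)} with hB
  have hfr : ∃ᶠ p in l.curry l', p ∈ B := by
    rw [frequently_curry_iff]
    exact hbad
  refine ⟨ι × ι', (l.curry l') ⊓ 𝓟 B, y + (1/2:ℝ) • Y + σ • Y',
    fun p => (1/2:ℝ) • g p.1 + σ • g' p.2, frequently_mem_iff_neBot.1 hfr, ?_, ?_, ?_⟩
  · infer_instance
  · rw [eventually_inf_principal]
    refine Eventually.of_forall fun p hp => ?_
    have e1 : y + (1/2:ℝ) • Y + σ • Y' + ((1/2:ℝ) • g p.1 + σ • g' p.2) =
      y + (1/2:ℝ) • (Y + g p.1) + σ • (Y' + g' p.2) := by module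
    rw [e1]
    exact hp
  · have key : ∀ (P : ι × ι' → Prop), (∀ᶠ i in l, ∀ᶠ i' in l', P (i, i')) →
        ∀ᶠ p in (l.curry l') ⊓ 𝓟 B, P p := by
      intro P hP
      have h1 : ∀ᶠ p in l.curry l', P p := hP
      exact h1.filter_mono inf_le_left
    refine ⟨fun u t => key _ ?_, fun u t ht => key _ ?_, fun u t ht => key _ ?_⟩
    · filter_upwards [hg.1 u (t * (1/2))] with i hi
      filter_upwards [hg'.1 (u + (t * (1/2)) • g i) (t * σ)] with i' hi'
      refine hi.trans (hi'.trans (le_of_eq ?_))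
      congr 1
      module
    · filter_upwards [hg.1 u (t * (1/2))] with i hi
      filter_upwards [hg'.2.1 (u + (t * (1/2)) • g i) (t * σ) (by rw [abs_mul, hσ, ht, mul_one])]
        with i' hi'
      refine (hΦ hi).trans (hi'.trans (le_of_eq ?_))
      congr 1
      module
    · filter_upwards [hg.2.1 u (t * (1/2)) (by rw [abs_mul, ht]; norm_num)] with i hi
      filter_upwards [hg'.2.2 (u + (t * (1/2)) • g i) (t * σ) (by rw [abs_mul, hσ, ht, mul_one])]
        with i' hi'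
      rw [Function.iterate_succ_apply]
      refine ((hΦ.iterate (k + 1)) hi).trans (hi'.trans (le_of_eq ?_))
      congr 1
      module

/-- monotonicity of the level in the cardinal -/
lemma Lev.mono {Φ : ℝ → ℝ} {e : ℝ} {k : ℕ} {μ μ' : Cardinal.{u}} (h : Lev q Φ e k μ')
    (hle : μ ≤ μ') : Lev q Φ e k μ := by
  obtain ⟨ι, l, Y, g, h1, h2, h3, h4⟩ := h
  exact ⟨ι, l, Y, g, h1, CardinalInterFilter.of_cardinalInterFilter_of_le l hle, h3, h4⟩

/-- the growth function -/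
noncomputable def Gr (M a0 δ : ℝ) (a : ℝ) : ℝ := min M ((1 + δ) * max a a0)

lemma Gr_mono {M a0 δ : ℝ} (hδ : 0 < δ) : Monotone (Gr M a0 δ) := by
  intro a b hab
  exact min_le_min le_rfl (mul_le_mul_of_nonneg_left (max_le_max hab le_rfl) (by linarith))

lemma Gr_iter {M a0 δ : ℝ} (hM : 0 < M) (ha0 : 0 < a0) (hδ : 0 < δ) (n : ℕ) (a : ℝ) :
    min M ((1 + δ) ^ (n + 1) * a0) ≤ (Gr M a0 δ)^[n + 1] a := by
  induction n with
  | zero =>
    simp only [zero_add, pow_one, Function.iterate_one, Gr]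
    exact min_le_min le_rfl (mul_le_mul_of_nonneg_left (le_max_right _ _) (by linarith))
  | succ n ih =>
    rw [Function.iterate_succ_apply']
    have h1 := Gr_mono (M := M) (a0 := a0) hδ ih
    refine le_trans ?_ h1
    unfold Gr
    refine le_min (min_le_left _ _) ?_
    have h2 : (1 + δ) * min M ((1 + δ) ^ (n + 1) * a0) ≤
        (1 + δ) * max (min M ((1 + δ) ^ (n + 1) * a0)) a0 :=
      mul_le_mul_of_nonneg_left (le_max_left _ _) (by linarith)
    refine le_trans ?_ h2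
    rcases le_total M ((1 + δ) ^ (n + 1) * a0) with h | h
    · rw [min_eq_left h]
      refine (min_le_left _ _).trans ?_
      nlinarith
    · rw [min_eq_right h]
      refine (min_le_right _ _).trans (le_of_eq ?_)
      ring

end Pool.Agent.K9h84.PC
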