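import Pool.Agent.K9h84.PC.Fam

/-! The transfinite greedy construction. -/

namespace Pool.Agent.K9h84.PC

open Filter Topology Set Cardinal

universe u

variable {E : Type u} [NormedAddCommGroup E] [NormedSpace ℝ E]

/-- good families, indexed by `A` -/
structure GoodFam (E : Type u) [NormedAddCommGroup E] [NormedSpace ℝ E] (κ : Cardinal.{u})
    (s T : ℝ) where
  A : Type u
  μ : A → Cardinal.{u}
  ι : A → Type u
  l : ∀ a, Filter (ι a)
  v : ∀ a, ι a → E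
  hA : ∀ a, #A < μ a
  hμ : ∀ a, ℵ₀ < μ a
  cof : ∀ lam < κ, ∃ a, lam < μ a
  nb : ∀ a, (l a).NeBot
  compl : ∀ a, CardinalInterFilter (l a) (μ a)
  hs : ∀ a, ∀ᶠ i in l a, ‖v a i‖ ≤ s
  cross : ∀ a a', μ a ≤ μ a' → ∀ y : E, ∀ᶠ i in l a, ∀ᶠ i' in l a',
    T ≤ ‖y + (1/2:ℝ) • v a i + v a' i'‖ ∧ T ≤ ‖y + (1/2:ℝ) • v a i - v a' i'‖

variable {κ : Cardinal.{u}} {s T : ℝ}

/-- the invariant of the greedy construction -/
def GoodSet (F : GoodFam E κ s T) (d : ℝ) (P : Set E) (lam : Cardinal.{u}) : Prop :=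
  ∀ p ∈ P, ∀ r ∈ P, p ≠ r → d ≤ ‖p - r‖ ∧ ∀ a, lam < F.μ a → ∀ᶠ i in F.l a,
    T ≤ ‖(1/2:ℝ) • (p - r) + F.v a i‖

lemma cross' (F : GoodFam E κ s T) {a a' : F.A} (h : F.μ a ≤ F.μ a') (y : E) (σ : ℝ)
    (hσ : σ = 1 ∨ σ = -1) : ∀ᶠ i in F.l a, ∀ᶠ i' in F.l a',
    T ≤ ‖y + (1/2:ℝ) • (σ • F.v a i) + F.v a' i'‖ ∧
    T ≤ ‖y + (1/2:ℝ) • (σ • F.v a i) - F.v a' i'‖ := by
  rcases hσ with rfl | rfl
  · simpa using F.cross a a' h y
  · filter_upwards [F.cross a a' h (-y)] with i hi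
    filter_upwards [hi] with i' hi'
    have e1 : y + (1/2:ℝ) • ((-1:ℝ) • F.v a i) + F.v a' i' =
      -(-y + (1/2:ℝ) • F.v a i - F.v a' i') := by module
    have e2 : y + (1/2:ℝ) • ((-1:ℝ) • F.v a i) - F.v a' i' =
      -(-y + (1/2:ℝ) • F.v a i + F.v a' i') := by module
    rw [e1, e2, norm_neg, norm_neg]
    exact ⟨hi'.2, hi'.1⟩

/-- choice of the correction vector and of the sign -/
lemma exists_dir (F : GoodFam E κ s T) {η : ℝ} (hη : 0 < η) (hs0 : 0 ≤ s)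
    (hT : s + 3 * η ≤ T) {P : Set E} {lam : Cardinal.{u}} (hPl : #P ≤ lam)
    (hP : GoodSet F (s + 2 * η) P lam) (x : E) (hx : ∀ p ∈ P, s + η < ‖x - p‖) (a : F.A)
    (ha : lam < F.μ a) :
    ∃ (h : E) (σ : ℝ), ‖h‖ ≤ η ∧ (σ = 1 ∨ σ = -1) ∧
      ∃ᶠ i in F.l a, ∀ r ∈ P, s + 2 * η ≤ ‖x + h - r + σ • F.v a i‖ := by
  haveI := F.nb a
  haveI := F.compl a
  have hPa : #P < F.μ a := hPl.trans_lt ha
  -- (1)
  have h1 : ∀ᶠ i in F.l a, ∀ p (_ : p ∈ P), ∀ r (_ : r ∈ P), p ≠ r →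
      T ≤ ‖(1/2:ℝ) • (p - r) + F.v a i‖ := by
    rw [eventually_cardinal_ball hPa]
    intro p hp
    rw [eventually_cardinal_ball hPa]
    intro r hr
    by_cases hpr : p = r
    · exact Eventually.of_forall fun i h => absurd hpr h
    · filter_upwards [(hP p hp r hr hpr).2 a ha] with i hi _ using hi
  -- the trichotomy
  have h2 : ∀ᶠ i in F.l a, (∀ r ∈ P, s + 3 * η ≤ ‖x - r + F.v a i‖) ∨
      (∀ r ∈ P, s + 3 * η ≤ ‖x - r - F.v a i‖) ∨ ∃ p ∈ P, ∀ r ∈ P, r ≠ p →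
        s + 3 * η ≤ ‖x - r + F.v a i‖ ∧ s + 3 * η ≤ ‖x - r - F.v a i‖ := by
    filter_upwards [h1] with i hi
    by_contra hcon
    push Not at hcon
    obtain ⟨⟨p, hp, hp1⟩, ⟨r, hr, hr1⟩, h3⟩ := hcon
    -- any two bad points coincide
    have hco : ∀ p ∈ P, ∀ r ∈ P, ‖x - p + F.v a i‖ < s + 3 * η → ‖x - r - F.v a i‖ < s + 3 * η →
        p = r := by
      intro p hp r hr h4 h5
      by_contra hne
      have h6 := hi r hr p hp (Ne.symm hne)
      have e1 : (1/2:ℝ) • (r - p) + F.v a i =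
        (1/2:ℝ) • ((x - p + F.v a i) - (x - r - F.v a i)) := by module
      rw [e1, norm_smul, Real.norm_eq_abs, abs_of_pos (by norm_num)] at h6
      have h7 := norm_sub_le (x - p + F.v a i) (x - r - F.v a i)
      linarith
    have hpr := hco p hp r hr hp1 hr1
    obtain ⟨r', hr', hne, h8⟩ := h3 p hp
    by_cases h9 : s + 3 * η ≤ ‖x - r' + F.v a i‖
    · have h10 := h8 h9
      exact hne (hco p hp r' hr' hp1 h10).symm
    · push Not at h9
      rw [hpr] at hne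
      exact hne (hco r' hr' r hr h9 hr1)
  have h3 := (h2.frequently)
  rw [frequently_or_distrib, frequently_or_distrib] at h3
  rcases h3 with h3 | h3 | h3
  · refine ⟨0, 1, by simpa using hη.le, Or.inl rfl, h3.mono fun i hi r hr => ?_⟩
    have := hi r hr
    rw [add_zero, one_smul]
    linarith
  · refine ⟨0, -1, by simpa using hη.le, Or.inr rfl, h3.mono fun i hi r hr => ?_⟩
    have := hi r hr
    rw [add_zero, neg_smul, one_smul, ← sub_eq_add_neg]
    linarith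
  · -- pigeonhole
    obtain ⟨p, hp, h4⟩ : ∃ p ∈ P, ∃ᶠ i in F.l a, ∀ r ∈ P, r ≠ p →
        s + 3 * η ≤ ‖x - r + F.v a i‖ ∧ s + 3 * η ≤ ‖x - r - F.v a i‖ := by
      by_contra hcon
      push Not at hcon
      have h5 : ∀ᶠ i in F.l a, ∀ p (_ : p ∈ P), ¬ ∀ r ∈ P, r ≠ p →
          s + 3 * η ≤ ‖x - r + F.v a i‖ ∧ s + 3 * η ≤ ‖x - r - F.v a i‖ := by
        rw [eventually_cardinal_ball hPa]
        intro p hp
        have := hcon p hp
        filter_upwards [this] with i hi h6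
        obtain ⟨r, hr, hne, h7⟩ := hi
        exact absurd (h6 r hr hne).2 (not_le.2 (h7 (h6 r hr hne).1))
      obtain ⟨i, ⟨p, hp, hi⟩, hi2⟩ := (h3.and_eventually h5).exists
      exact hi2 p hp hi
    have hxp := hx p hp
    have hpos : 0 < ‖x - p‖ := by linarith
    set h : E := (η / ‖x - p‖) • (x - p) with hh
    have hhn : ‖h‖ = η := by
      rw [hh, norm_smul, Real.norm_eq_abs, abs_of_pos (div_pos hη hpos),
        div_mul_cancel₀ _ hpos.ne']
    have hw : ‖x + h - p‖ = ‖x - p‖ + η := by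
      have e2 : x + h - p = (1 + η / ‖x - p‖) • (x - p) := by
        rw [hh]
        module
      rw [e2, norm_smul, Real.norm_eq_abs, abs_of_pos (by positivity), add_mul, one_mul,
        div_mul_cancel₀ _ hpos.ne']
    have hsign : ∀ i, s + 2 * η ≤ ‖x + h - p + (1:ℝ) • F.v a i‖ ∨
        s + 2 * η ≤ ‖x + h - p + (-1:ℝ) • F.v a i‖ := by
      intro i
      by_contra hcon
      push Not at hcon
      have e3 : x + h - p = (1/2:ℝ) • ((x + h - p + (1:ℝ) • F.v a i) +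
        (x + h - p + (-1:ℝ) • F.v a i)) := by module
      have h5 := norm_add_le (x + h - p + (1:ℝ) • F.v a i) (x + h - p + (-1:ℝ) • F.v a i)
      have h6 : ‖x + h - p‖ = (1/2) * ‖(x + h - p + (1:ℝ) • F.v a i) +
        (x + h - p + (-1:ℝ) • F.v a i)‖ := by
        conv_lhs => rw [e3]
        rw [norm_smul, Real.norm_eq_abs, abs_of_pos (by norm_num)]
      linarith
    have h7 : ∃ᶠ i in F.l a, (∀ r ∈ P, s + 2 * η ≤ ‖x + h - r + (1:ℝ) • F.v a i‖) ∨
        ∀ r ∈ P, s + 2 * η ≤ ‖x + h - r + (-1:ℝ) • F.v a i‖ := by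
      refine h4.mono fun i hi => ?_
      have hother : ∀ r ∈ P, r ≠ p → s + 2 * η ≤ ‖x + h - r + (1:ℝ) • F.v a i‖ ∧
          s + 2 * η ≤ ‖x + h - r + (-1:ℝ) • F.v a i‖ := by
        intro r hr hne
        obtain ⟨h8, h9⟩ := hi r hr hne
        constructor
        · have e4 : x - r + F.v a i = (x + h - r + (1:ℝ) • F.v a i) - h := by module
          rw [e4] at h8
          have := norm_sub_le (x + h - r + (1:ℝ) • F.v a i) h
          linarith
        · have e4 : x - r - F.v a i = (x + h - r + (-1:ℝ) • F.v a i) - h := by module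
          rw [e4] at h9
          have := norm_sub_le (x + h - r + (-1:ℝ) • F.v a i) h
          linarith
      rcases hsign i with h8 | h8
      · left
        intro r hr
        by_cases hne : r = p
        · rw [hne]; exact h8
        · exact (hother r hr hne).1
      · right
        intro r hr
        by_cases hne : r = p
        · rw [hne]; exact h8
        · exact (hother r hr hne).2
    rw [frequently_or_distrib] at h7
    rcases h7 with h7 | h7
    · exact ⟨h, 1, hhn.le, Or.inl rfl, h7⟩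
    · exact ⟨h, -1, hhn.le, Or.inr rfl, h7⟩

/-- one step of the construction -/
lemma greedy_step (F : GoodFam E κ s T) {η : ℝ} (hη : 0 < η) (hs0 : 0 ≤ s)
    (hT : s + 3 * η ≤ T) {P : Set E} {lam : Cardinal.{u}} (hPl : #P ≤ lam) (hlam : lam < κ)
    (hP : GoodSet F (s + 2 * η) P lam) (x : E) :
    ∃ z, GoodSet F (s + 2 * η) (insert z P) lam ∧ ∃ p ∈ insert z P, ‖x - p‖ ≤ s + η := by
  by_cases hcov : ∃ p ∈ P, ‖x - p‖ ≤ s + η
  · obtain ⟨p, hp, hxp⟩ := hcov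
    exact ⟨p, by rwa [insert_eq_of_mem hp], p, mem_insert _ _, hxp⟩
  push Not at hcov
  -- the minimal cardinal
  obtain ⟨a0, ha0⟩ := F.cof lam hlam
  obtain ⟨a, ha, hmin⟩ : ∃ a, lam < F.μ a ∧ ∀ a', lam < F.μ a' → F.μ a ≤ F.μ a' := by
    have hwf := (inferInstance : WellFoundedLT Cardinal.{u}).wf
    obtain ⟨m, ⟨a, ha, rfl⟩, hm⟩ := hwf.has_min {m | ∃ a, lam < F.μ a ∧ m = F.μ a}
      ⟨_, a0, ha0, rfl⟩
    exact ⟨a, ha, fun a' ha' => not_lt.1 (hm _ ⟨a', ha', rfl⟩)⟩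
  obtain ⟨h, σ, hh, hσ, hfr⟩ := exists_dir F hη hs0 hT hPl hP x hcov a ha
  haveI := F.nb a
  haveI := F.compl a
  have hPa : #P < F.μ a := hPl.trans_lt ha
  have hev : ∀ᶠ i in F.l a, ∀ r (_ : r ∈ P), ∀ a' : F.A, lam < F.μ a' → ∀ᶠ i' in F.l a',
      T ≤ ‖(1/2:ℝ) • (x + h - r) + (1/2:ℝ) • (σ • F.v a i) + F.v a' i'‖ ∧
      T ≤ ‖(1/2:ℝ) • (x + h - r) + (1/2:ℝ) • (σ • F.v a i) - F.v a' i'‖ := by
    rw [eventually_cardinal_ball hPa]
    intro r hr
    rw [eventually_cardinal_forall (F.hA a)]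
    intro a'
    by_cases ha' : lam < F.μ a'
    · filter_upwards [cross' F (hmin a' ha') ((1/2:ℝ) • (x + h - r)) σ hσ] with i hi _ using hi
    · exact Eventually.of_forall fun i h => absurd h ha'
  obtain ⟨i, hi1, hi2, hi3⟩ := (hfr.and_eventually (hev.and (F.hs a))).exists
  set z : E := x + h + σ • F.v a i with hz
  have hsz : ‖σ • F.v a i‖ ≤ s := by
    rw [norm_smul, Real.norm_eq_abs]
    rcases hσ with h | h <;> simp [h, hi3]
  have hzr : ∀ r, z - r = x + h - r + σ • F.v a i := by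
    intro r
    rw [hz]
    abel
  have hnew : ∀ r ∈ P, s + 2 * η ≤ ‖z - r‖ ∧ (∀ a', lam < F.μ a' → ∀ᶠ i' in F.l a',
      T ≤ ‖(1/2:ℝ) • (z - r) + F.v a' i'‖ ∧ T ≤ ‖(1/2:ℝ) • (r - z) + F.v a' i'‖) := by
    intro r hr
    refine ⟨by rw [hzr]; exact hi1 r hr, fun a' ha' => ?_⟩
    filter_upwards [hi2 r hr a' ha'] with i' hi'
    have e1 : (1/2:ℝ) • (z - r) + F.v a' i' =
      (1/2:ℝ) • (x + h - r) + (1/2:ℝ) • (σ • F.v a i) + F.v a' i' := by
      rw [hzr, smul_add]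
    have e2 : (1/2:ℝ) • (r - z) + F.v a' i' =
      -((1/2:ℝ) • (x + h - r) + (1/2:ℝ) • (σ • F.v a i) - F.v a' i') := by
      rw [hz]
      module
    rw [e1, e2, norm_neg]
    exact hi'
  refine ⟨z, ?_, z, mem_insert _ _, ?_⟩
  · intro p hp r hr hpr
    rw [mem_insert_iff] at hp hr
    rcases hp with rfl | hp
    · rcases hr with rfl | hr
      · exact absurd rfl hpr
      · exact ⟨(hnew r hr).1, fun a' ha' => ((hnew r hr).2 a' ha').mono fun _ h => h.1⟩
    · rcases hr with rfl | hr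
      · refine ⟨?_, fun a' ha' => ((hnew p hp).2 a' ha').mono fun _ h => h.2⟩
        rw [norm_sub_rev]
        exact (hnew p hp).1
      · exact hP p hp r hr hpr
  · have e1 : x - z = -(h + σ • F.v a i) := by
      rw [hz]
      abel
    rw [e1, norm_neg]
    have := norm_add_le h (σ • F.v a i)
    linarith

/-- the transfinite construction -/
lemma greedy (F : GoodFam E κ s T) {η : ℝ} (hη : 0 < η) (hs0 : 0 ≤ s)
    (hT : s + 3 * η ≤ T) (x : κ.ord.ToType → E) :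
    ∃ P : Set E, (∀ p ∈ P, ∀ r ∈ P, p ≠ r → s + 2 * η ≤ ‖p - r‖) ∧
      ∀ a, ∃ p ∈ P, ‖x a - p‖ ≤ s + η := by
  classical
  let g : κ.ord.ToType → Set E → E := fun a P =>
    if h : #P ≤ #(Iio a) ∧ GoodSet F (s + 2 * η) P (#(Iio a)) then
      (greedy_step F hη hs0 hT h.1 (mk_Iio_toType_ord_lt a) h.2 (x a)).choose else 0
  have hg : ∀ (a : κ.ord.ToType) (P : Set E), #P ≤ #(Iio a) → GoodSet F (s + 2 * η) P (#(Iio a)) →
      GoodSet F (s + 2 * η) (insert (g a P) P) (#(Iio a)) ∧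
        ∃ p ∈ insert (g a P) P, ‖x a - p‖ ≤ s + η := by
    intro a P h1 h2
    have h3 : g a P = (greedy_step F hη hs0 hT h1 (mk_Iio_toType_ord_lt a) h2 (x a)).choose := by
      simp only [g]
      rw [dif_pos ⟨h1, h2⟩]
    rw [h3]
    exact (greedy_step F hη hs0 hT h1 (mk_Iio_toType_ord_lt a) h2 (x a)).choose_spec
  let wf := (inferInstance : WellFoundedLT κ.ord.ToType).wf
  let f : κ.ord.ToType → E := wf.fix fun a F' => g a (Set.range fun b : Iio a => F' b.1 b.2)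
  have hf : ∀ a, f a = g a (f '' Iio a) := by
    intro a
    have h1 : f a = g a (Set.range fun b : Iio a => f b.1) := wf.fix_eq _ a
    rw [h1]
    congr 1
    ext y
    simp
  have hcard : ∀ a, #(f '' Iio a) ≤ #(Iio a) := fun a => mk_image_le
  have hins : ∀ a, insert (f a) (f '' Iio a) = f '' Iic a := by
    intro a
    rw [← image_insert_eq, Iio_insert]
  have hgood : ∀ a, GoodSet F (s + 2 * η) (f '' Iic a) (#(Iio a)) ∧
      ∃ p ∈ f '' Iic a, ‖x a - p‖ ≤ s + η := by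
    intro a
    induction a using wf.induction with
    | _ a ih =>
      have hP : GoodSet F (s + 2 * η) (f '' Iio a) (#(Iio a)) := by
        rintro _ ⟨b, hb, rfl⟩ _ ⟨b', hb', rfl⟩ hne
        have hm : max b b' < a := max_lt hb hb'
        obtain ⟨h1, -⟩ := ih (max b b') hm
        obtain ⟨h2, h3⟩ := h1 (f b) ⟨b, mem_Iic.2 (le_max_left b b'), rfl⟩ (f b') ⟨b', mem_Iic.2 (le_max_right b b'), rfl⟩ hne
        refine ⟨h2, fun a' ha' => h3 a' (lt_of_le_of_lt ?_ ha')⟩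
        exact mk_le_mk_of_subset (Iio_subset_Iio hm.le)
      have h4 := hg a _ (hcard a) hP
      rw [← hf, hins] at h4
      exact h4
  refine ⟨Set.range f, ?_, fun a => ?_⟩
  · rintro _ ⟨b, rfl⟩ _ ⟨b', rfl⟩ hne
    exact ((hgood (max b b')).1 (f b) ⟨b, mem_Iic.2 (le_max_left b b'), rfl⟩ (f b')
      ⟨b', mem_Iic.2 (le_max_right b b'), rfl⟩ hne).1
  · obtain ⟨p, ⟨b, -, rfl⟩, h⟩ := (hgood a).2
    exact ⟨f b, ⟨b, rfl⟩, h⟩

end Pool.Agent.K9h84.PC
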