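import Pool.Agent.K9h84.PC.Fam

/-! Families of level zero exist; families of high level do not. -/

namespace Pool.Agent.K9h84.PC

open Filter Topology Set Cardinal

universe u

variable {E : Type u} [NormedAddCommGroup E] [NormedSpace ℝ E] {q : Seminorm ℝ E} {c C : ℝ}

lemma lev_zero [CompleteSpace E] (hq : UCNorm q c C) {κ : Cardinal.{u}} (hκ : ℵ₀ < κ)
    (hD : ∀ D : Set E, Dense D → κ ≤ #D) {M δ1 : ℝ} (hM : 0 < M) (hδ1 : 0 < δ1)
    (hU : ∀ x y, q x ≤ 1 → q y ≤ 1 → c / (2 * M) ≤ q (x - y) →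
      q ((1/2:ℝ) • (x + y)) ≤ 1 - δ1) (e : ℝ) {μ : Cardinal.{u}}
    (hμ : μ.IsRegular) (hle : μ ≤ κ) : Lev q (Gr M (c / 8) (min δ1 1)) e 0 μ := by
  have hs : ∀ N : Idx E μ, ∃ s : E, ‖s‖ = 1 ∧ ∀ f ∈ N.1, f s = 0 := fun N =>
    exists_common_zero hq hκ hD N.1 (N.2.trans_le hle)
  choose s hs1 hs2 using hs
  have hc := hq.cpos
  have hnb := coneFilter_neBot (E := E) hμ
  have hgen : ∀ w : E, ∀ᶠ N in coneFilter E hμ, ∀ t : ℝ, q w ≤ q (w + t • s N) := by
    intro w
    obtain ⟨f, hf1, hf2⟩ := exists_norming hq w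
    rw [Filter.Eventually, mem_coneFilter]
    have hone : #({f} : Set (E →L[ℝ] ℝ)) < μ := by
      rw [mk_singleton]
      exact one_lt_aleph0.trans_le hμ.aleph0_le
    refine ⟨⟨{f}, hone⟩, fun N hN t => ?_⟩
    have h1 : f (s N) = 0 := hs2 N f (hN rfl)
    have h2 := hf2 (w + t • s N)
    rw [map_add, map_smul, h1, smul_zero, add_zero, hf1] at h2
    exact h2
  have hgrow : ∀ (u : E) (t : ℝ), 1/2 ≤ |t| → |t| ≤ 1 → ∀ᶠ N in coneFilter E hμ,
      Gr M (c / 8) (min δ1 1) (q u) ≤ q (u + t • s N) := by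
    intro u t ht1 ht2
    by_contra hcon
    rw [not_eventually] at hcon
    have hδ : 0 < min δ1 1 := lt_min hδ1 one_pos
    set M' := Gr M (c / 8) (min δ1 1) (q u) with hM'
    have hMM : M' ≤ M := min_le_left _ _
    have hM'1 : M' ≤ (1 + min δ1 1) * max (q u) (c / 8) := min_le_right _ _
    have hM'0 : 0 < M' := by
      refine lt_min hM (mul_pos (by linarith) ?_)
      exact lt_of_lt_of_le (by positivity) (le_max_right _ _)
    obtain ⟨i, hi1, hi2⟩ := (hcon.and_eventually (hgen u)).exists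
    obtain ⟨j, hj1, hj2, hj3⟩ := (hcon.and_eventually ((hgen (s i)).and
      (hgen (u + (t / 2) • s i)))).exists
    push Not at hi1 hj1
    -- separation
    have hsep : c ≤ q (s i - s j) := by
      have h1 := hj2 (-1)
      have h2 := hq.low (s i)
      rw [hs1, mul_one] at h2
      have e1 : s i + (-1:ℝ) • s j = s i - s j := by module
      rw [e1] at h1
      linarith
    have hmid : q u ≤ q ((1/2:ℝ) • ((u + t • s i) + (u + t • s j))) := by
      have h1 := hi2 (t / 2)
      have h2 := hj3 (t / 2)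
      have e1 : (1/2:ℝ) • ((u + t • s i) + (u + t • s j)) = u + (t/2) • s i + (t/2) • s j := by
        module
      rw [e1]
      linarith
    have hscale : ∀ y : E, q ((1 / M') • y) = q y / M' := by
      intro y
      rw [map_smul_eq_mul, Real.norm_eq_abs, abs_of_pos (by positivity)]
      ring
    have hUC := hU ((1 / M') • (u + t • s i)) ((1 / M') • (u + t • s j))
      (by rw [hscale, div_le_one hM'0]; exact hi1.le)
      (by rw [hscale, div_le_one hM'0]; exact hj1.le)
      (by
        have e1 : (1 / M') • (u + t • s i) - (1 / M') • (u + t • s j) =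
          (1 / M') • (t • (s i - s j)) := by module
        rw [e1, hscale, map_smul_eq_mul, Real.norm_eq_abs, div_le_div_iff₀ (by positivity) hM'0]
        have h1 : (1/2) * c ≤ |t| * q (s i - s j) :=
          mul_le_mul ht1 hsep hc.le (abs_nonneg _)
        have h2 : c * M' ≤ c * M := mul_le_mul_of_nonneg_left hMM hc.le
        have h3 : (1/2) * c * (2 * M) ≤ |t| * q (s i - s j) * (2 * M) :=
          mul_le_mul_of_nonneg_right h1 (by positivity)
        linarith)
    have e2 : (1/2:ℝ) • ((1 / M') • (u + t • s i) + (1 / M') • (u + t • s j)) =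
        (1 / M') • ((1/2:ℝ) • ((u + t • s i) + (u + t • s j))) := by module
    rw [e2, hscale, div_le_iff₀ hM'0] at hUC
    have hle1 : q u ≤ (1 - min δ1 1) * M' := by
      have : (1 - δ1) * M' ≤ (1 - min δ1 1) * M' :=
        mul_le_mul_of_nonneg_right (by linarith [min_le_left δ1 1]) hM'0.le
      linarith
    rcases le_or_gt (c / 8) (q u) with h | h
    · rw [max_eq_left h] at hM'1
      have hqu : 0 < q u := by linarith
      have h1 : min δ1 1 ≤ 1 := min_le_right _ _
      have h2 : (1 - min δ1 1) * M' ≤ (1 - min δ1 1) * ((1 + min δ1 1) * q u) :=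
        mul_le_mul_of_nonneg_left hM'1 (by linarith)
      nlinarith [mul_pos hδ hδ]
    · rw [max_eq_right h.le] at hM'1
      have h1 : min δ1 1 ≤ 1 := min_le_right _ _
      have h2 : (1 + min δ1 1) * (c / 8) ≤ 2 * (c / 8) :=
        mul_le_mul_of_nonneg_right (by linarith) (by positivity)
      have h3 : q (t • s i) ≤ q (u + t • s i) + q u := by
        have := map_sub_le_add q (u + t • s i) u
        rwa [add_sub_cancel_left] at this
      have h4 : (1/2) * c ≤ q (t • s i) := by
        rw [map_smul_eq_mul, Real.norm_eq_abs]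
        have h5 := hq.low (s i)
        rw [hs1, mul_one] at h5
        exact mul_le_mul ht1 h5 hc.le (abs_nonneg _)
      linarith
  refine ⟨Idx E μ, coneFilter E hμ, 0, s, hnb, coneFilter_compl hμ, ?_, ?_, ?_, ?_⟩
  · refine Eventually.of_forall fun N => ?_
    rw [zero_add, hs1]
    norm_num
  · intro u t
    filter_upwards [hgen u] with N hN using hN t
  · intro u t ht
    exact hgrow u t ht.ge (by rw [ht]; norm_num)
  · intro u t ht
    simp only [zero_add, Function.iterate_one]
    exact hgrow u t (by rw [ht]; norm_num) ht.le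

/-- high levels are impossible -/
lemma not_lev (hq : UCNorm q c C) {M a0 δ e : ℝ} {n : ℕ} (hM : 4 * C + 1 ≤ M) (hC : 0 ≤ C)
    (ha0 : 0 < a0) (hδ : 0 < δ)
    (hn : M ≤ (1 + δ) ^ (n + 1) * a0) (he : (1 + e) ^ n ≤ 2) (μ : Cardinal.{u}) :
    ¬ Lev q (Gr M a0 δ) e n μ := by
  rintro ⟨ι, l, Y, g, hnb, -, hle, hg⟩
  obtain ⟨i, hi1, hi2⟩ := (hle.and (hg.2.2 Y 1 (by norm_num))).exists
  have h1 := Gr_iter (M := M) (a0 := a0) (δ := δ) (by linarith) ha0 hδ n (q Y)
  rw [min_eq_left hn] at h1
  rw [one_smul] at hi2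
  have h2 := hq.up (Y + g i)
  have h3 : C * ‖Y + g i‖ ≤ C * 4 := mul_le_mul_of_nonneg_left (by linarith) hC
  linarith

end Pool.Agent.K9h84.PC
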