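import Pool.Agent.K9h84.PC.Greedy
import Pool.Agent.K9h84.PC.LevZero
import Pool.Agent.R571.PC.UC

/-! Super-reflexive spaces of any density. -/

namespace Pool.Agent.K9h84.PC

open Filter Topology Set Cardinal

universe u

section build

variable {E : Type u} [NormedAddCommGroup E] [NormedSpace ℝ E] {q : Seminorm ℝ E} {c C : ℝ}

/-- admissible completeness degrees -/
def Adm (κ μ : Cardinal.{u}) : Prop :=
  μ.IsRegular ∧ ℵ₀ < μ ∧ μ ≤ κ ∧ (κ.IsRegular → μ = κ)

lemma exists_index {κ μ0 : Cardinal.{u}} (hκ : ℵ₀ < κ) (hμ0 : Adm κ μ0) :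
    ∃ (A : Type u) (μ : A → Cardinal.{u}), (∀ a, Adm κ (μ a)) ∧ (∀ a, μ0 ≤ μ a) ∧
      (∀ a, #A < μ a) ∧ ∀ lam < κ, ∃ a, lam < μ a := by
  by_cases hr : κ.IsRegular
  · refine ⟨PUnit, fun _ => κ, fun _ => ⟨hr, hκ, le_rfl, fun _ => rfl⟩, fun _ => hμ0.2.2.1,
      fun _ => ?_, fun lam h => ⟨PUnit.unit, h⟩⟩
    rw [mk_punit]
    exact one_lt_aleph0.trans hκ
  · have hsing : κ.IsSingular := (isRegular_or_isSingular hκ.le).resolve_left hr
    have hlim := hsing.isSuccLimit
    obtain ⟨A, f, hf1, hf2⟩ := Ordinal.exists_lsub_cof κ.ord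
    have hθ : #A < κ := by
      rw [hf2]
      exact hsing.cof_ord_lt
    have hfa : ∀ a, f a < κ.ord := by
      intro a
      rw [← hf1]
      exact Ordinal.lt_lsub f a
    have hμ0κ : μ0 < κ := lt_of_le_of_ne hμ0.2.2.1 (fun h => hr (h ▸ hμ0.1))
    have hlt : ∀ a, max (f a).card (max #A μ0) < κ := by
      intro a
      refine max_lt ?_ (max_lt hθ hμ0κ)
      exact lt_ord.1 (hfa a)
    have hinf : ∀ a, ℵ₀ ≤ max (f a).card (max #A μ0) := fun a =>
      hμ0.2.1.le.trans ((le_max_right _ _).trans (le_max_right _ _))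
    refine ⟨A, fun a => Order.succ (max (f a).card (max #A μ0)), fun a => ?_, fun a => ?_,
      fun a => ?_, fun lam hlam => ?_⟩
    · refine ⟨isRegular_succ (hinf a), (hinf a).trans_lt (Order.lt_succ _), ?_,
        fun h => absurd h hr⟩
      exact (hlim.succ_lt (hlt a)).le
    · exact ((le_max_right _ _).trans (le_max_right _ _)).trans (Order.le_succ _)
    · exact ((le_max_left _ _).trans (le_max_right _ _)).trans_lt (Order.lt_succ _)
    · have h1 : lam.ord < Ordinal.lsub.{u, u} f := by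
        rw [hf1]
        exact ord_lt_ord.2 hlam
      obtain ⟨a, ha⟩ := Ordinal.lt_lsub_iff.1 h1
      refine ⟨a, ?_⟩
      have h2 : lam ≤ (f a).card := by
        have := Ordinal.card_le_card ha
        rwa [card_ord] at this
      exact (h2.trans (le_max_left _ _)).trans_lt (Order.lt_succ _)

/-- existence of good families -/
lemma exists_goodFam [CompleteSpace E] (hq : UCNorm q c C) (hC : 0 ≤ C) {κ : Cardinal.{u}}
    (hκ : ℵ₀ < κ) (hD : ∀ D : Set E, Dense D → κ ≤ #D) :
    ∃ s η T : ℝ, 0 < s ∧ 0 < η ∧ s + 3 * η ≤ T ∧ Nonempty (GoodFam E κ s T) := by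
  have hc := hq.cpos
  set M : ℝ := 4 * C + 1 with hM
  have hM0 : 0 < M := by linarith
  obtain ⟨δ1, hδ1, hU⟩ := hq.uc (c / (2 * M)) (by positivity)
  set δ : ℝ := min δ1 1 with hδ
  have hδ0 : 0 < δ := lt_min hδ1 one_pos
  obtain ⟨n, hn⟩ := pow_unbounded_of_one_lt (M / (c / 8)) (by linarith : 1 < 1 + δ)
  have hn' : M ≤ (1 + δ) ^ (n + 1) * (c / 8) := by
    rw [div_lt_iff₀ (by positivity)] at hn
    refine hn.le.trans ?_
    refine mul_le_mul_of_nonneg_right ?_ (by positivity)
    exact pow_le_pow_right₀ (by linarith) (Nat.le_succ n)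
  set e : ℝ := 1 / (2 * n + 2) with he
  have he0 : 0 < e := by positivity
  have he1 : e ≤ 1 := by
    rw [he, div_le_one (by positivity)]
    have : (0:ℝ) ≤ n := Nat.cast_nonneg n
    linarith
  have hen : (1 + e) ^ n ≤ 2 := by
    have h1 : 1 + (n:ℝ) * (-e) ≤ (1 + -e) ^ n := one_add_mul_le_pow (by linarith) n
    have h2 : (1 + e) ^ n * (1 + -e) ^ n ≤ 1 := by
      rw [← mul_pow]
      exact pow_le_one₀ (by nlinarith) (by nlinarith)
    have h3 : (n:ℝ) * e ≤ 1/2 := by
      rw [he, mul_one_div, div_le_div_iff₀ (by positivity) (by norm_num)]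
      linarith
    have h4 : (1/2:ℝ) ≤ (1 + -e) ^ n := by linarith
    have h5 : 0 ≤ (1 + e) ^ n := by positivity
    nlinarith
  set Φ := Gr M (c / 8) δ with hΦ
  have hΦm : Monotone Φ := Gr_mono hδ0
  have hlev0 : ∀ μ : Cardinal.{u}, Adm κ μ → Lev q Φ e 0 μ := fun μ hμ =>
    lev_zero hq hκ hD hM0 hδ1 hU e hμ.1 hμ.2.2.1
  have hlevn : ∀ μ : Cardinal.{u}, ¬ Lev q Φ e n μ := fun μ =>
    not_lev hq le_rfl hC (by positivity) hδ0 hn' hen μ
  have hadm : ∃ μ, Adm κ μ := by
    by_cases hr : κ.IsRegular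
    · exact ⟨κ, hr, hκ, le_rfl, fun _ => rfl⟩
    · refine ⟨Order.succ ℵ₀, isRegular_succ le_rfl, Order.lt_succ _, Order.succ_le_of_lt hκ,
        fun h => absurd h hr⟩
  -- the maximal level
  obtain ⟨k, hk1, hk2⟩ : ∃ k, (∀ μ, Adm κ μ → Lev q Φ e k μ) ∧
      ¬ ∀ μ, Adm κ μ → Lev q Φ e (k + 1) μ := by
    by_contra hcon
    push Not at hcon
    have : ∀ k, ∀ μ, Adm κ μ → Lev q Φ e k μ := by
      intro k
      induction k with
      | zero => exact hlev0
      | succ k ih => exact hcon k ih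
    obtain ⟨μ, hμ⟩ := hadm
    exact hlevn μ (this n μ hμ)
  push Not at hk2
  obtain ⟨μ0, hμ0, hk3⟩ := hk2
  obtain ⟨A, μ, hA1, hA2, hA3, hA4⟩ := exists_index hκ hμ0
  have hdata : ∀ a, Lev q Φ e k (μ a) := fun a => hk1 _ (hA1 a)
  choose ι l Y g h1 h2 h3 h4 using hdata
  refine ⟨2 * (1 + e) ^ k, 2 * (1 + e) ^ k * e / 3, 2 * (1 + e) ^ (k + 1), by positivity,
    by positivity, ?_, ⟨⟨A, μ, ι, l, fun a i => Y a + g a i, hA3, fun a => (hA1 a).2.1, hA4, h1, h2,
      fun a => (h3 a).mono fun i hi => hi.le, ?_⟩⟩⟩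
  · rw [pow_succ]
    ring_nf
    exact le_rfl
  · intro a a' haa y
    by_contra hcon
    rw [not_eventually] at hcon
    have h5 : ∃ᶠ i in l a, ∃ᶠ i' in l a',
        ‖y + (1/2:ℝ) • (Y a + g a i) + (1:ℝ) • (Y a' + g a' i')‖ < 2 * (1 + e) ^ (k + 1) ∨
        ‖y + (1/2:ℝ) • (Y a + g a i) + (-1:ℝ) • (Y a' + g a' i')‖ < 2 * (1 + e) ^ (k + 1) := by
      refine hcon.mono fun i hi => ?_
      rw [not_eventually] at hi
      refine hi.mono fun i' hi' => ?_
      rw [one_smul, neg_smul, one_smul, ← sub_eq_add_neg]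
      rw [not_and_or, not_le, not_le] at hi'
      exact hi'
    have hce : CardinalInterFilter (l a') (μ a) := by
      haveI := h2 a'
      exact CardinalInterFilter.of_cardinalInterFilter_of_le (l a') haa
    simp only [frequently_or_distrib] at h5
    have h6 : Lev q Φ e (k + 1) (μ a) := by
      rcases h5 with h5 | h5
      · exact Lev.step hΦm (h2 a) hce (h4 a) (h4 a') y 1 (by norm_num) h5
      · exact Lev.step hΦm (h2 a) hce (h4 a) (h4 a') y (-1) (by norm_num) h5
    exact hk3 (h6.mono (hA2 a))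

/-- packings in Banach spaces of uncountable density -/
lemma packing_banach [CompleteSpace E] (hq : UCNorm q c C) (hC : 0 ≤ C)
    (hns : ¬ TopologicalSpace.SeparableSpace E) :
    ∃ (ρ η : ℝ) (P : Set E), 0 < ρ ∧ 0 < η ∧
      (∀ p ∈ P, ∀ r ∈ P, p ≠ r → ρ + η ≤ ‖p - r‖) ∧
      ∀ x : E, ∀ ε > 0, ∃ p ∈ P, ‖x - p‖ < ρ + ε := by
  -- a dense set of least cardinality
  have hwf := (inferInstance : WellFoundedLT Cardinal.{u}).wf
  obtain ⟨κ, ⟨D, hD, rfl⟩, hmin⟩ := hwf.has_min {m : Cardinal.{u} | ∃ D : Set E, Dense D ∧ m = #D}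
    ⟨_, univ, dense_univ, rfl⟩
  have hκ : ℵ₀ < #D := by
    rw [← not_le]
    intro h
    exact hns ⟨D, le_aleph0_iff_set_countable.1 h, hD⟩
  have hD' : ∀ D' : Set E, Dense D' → #D ≤ #D' := fun D' h' => not_lt.1 (hmin _ ⟨D', h', rfl⟩)
  obtain ⟨s, η, T, hs, hη, hT, ⟨F⟩⟩ := exists_goodFam hq hC hκ hD'
  have heq : #((#D).ord.ToType) = #D := mk_ord_toType _
  obtain ⟨φ⟩ := Cardinal.eq.1 heq
  obtain ⟨P, hP1, hP2⟩ := greedy F hη hs.le hT (fun a => (φ a : E))
  refine ⟨s + η, η, P, by linarith, hη, fun p hp r hr hne => ?_, fun x ε hε => ?_⟩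
  · have := hP1 p hp r hr hne
    linarith
  · obtain ⟨y, hy, hyD⟩ := Metric.dense_iff.1 hD x ε hε
    obtain ⟨p, hp, h⟩ := hP2 (φ.symm ⟨y, hyD⟩)
    rw [Equiv.apply_symm_apply] at h
    refine ⟨p, hp, ?_⟩
    rw [Metric.mem_ball, dist_comm, dist_eq_norm] at hy
    have h1 := norm_sub_le_norm_sub_add_norm_sub x y p
    change ‖y - p‖ ≤ s + η at h
    linarith

end build

open Pool.Agent.R571.PC in
lemma ucnorm_of_has {E : Type u} [NormedAddCommGroup E] [NormedSpace ℝ E]
    (h : HasEquivUCNorm E) : ∃ (q : Seminorm ℝ E) (c C : ℝ), 0 ≤ C ∧ UCNorm q c C := by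
  obtain ⟨q, ⟨c, hc, hqc⟩, ⟨C, hqC⟩, hq⟩ := h
  refine ⟨q, c, max C 0, le_max_right _ _, hc, hqc, fun x => ?_, fun ε hε => ?_⟩
  · exact (hqC x).trans (mul_le_mul_of_nonneg_right (le_max_left _ _) (norm_nonneg x))
  · obtain ⟨δ, hδ, h⟩ := hq (min ε 2) (lt_min hε two_pos) (min_le_right _ _)
    exact ⟨δ, hδ, fun x y hx hy hxy => h x y hx hy ((min_le_left _ _).trans hxy)⟩

open Pool.Agent.R571.PC UniformSpace in
/-- **Main theorem.** Every super-reflexive normed space has simultaneous packing and covering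
constant less than two. -/
theorem gamma_lt_two_of_superreflexive (X : Type u) [NormedAddCommGroup X] [NormedSpace ℝ X]
    (h : HasEquivUCNorm (Completion X)) : gamma X < 2 := by
  by_cases hsep : TopologicalSpace.SeparableSpace X
  · exact gamma_lt_two (signs_of_ucnorm (ucnorm_of_completion h))
  have hns : ¬ TopologicalSpace.SeparableSpace (Completion X) := by
    intro hc
    apply hsep
    haveI : SecondCountableTopology (Completion X) :=
      UniformSpace.secondCountable_of_separable _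
    haveI : SecondCountableTopology X :=
      (Completion.isUniformInducing_coe X).isInducing.secondCountableTopology
    infer_instance
  obtain ⟨q, c, C, hC, hq⟩ := ucnorm_of_has h
  obtain ⟨ρ, η, P, hρ, hη, hP1, hP2⟩ := packing_banach hq hC hns
  -- move the centres into `X`
  have hapx : ∀ p : Completion X, ∃ x : X, ‖p - (x : Completion X)‖ < η / 8 := by
    intro p
    have hd := (Completion.denseRange_coe (α := X)) p
    obtain ⟨x, hx⟩ := Metric.denseRange_iff.1 (Completion.denseRange_coe (α := X)) p (η / 8)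
      (by positivity)
    exact ⟨x, by rwa [dist_eq_norm] at hx⟩
  choose f hf using hapx
  set d : ℝ := ρ + η - η / 4 with hd
  have hd0 : 0 < d := by linarith
  have hr : (2 / d) * (ρ + η / 4) < 2 := by
    rw [div_mul_eq_mul_div, div_lt_iff₀ hd0]
    linarith
  have hle : gamma X ≤ (2 / d) * (ρ + η / 4) := by
    apply csInf_le
    · exact ⟨0, fun x hx => hx.1.le⟩
    · refine ⟨by positivity, (fun p => (2 / d) • f p) '' P, ?_, fun x => ?_⟩
      · rintro _ ⟨p, hp, rfl⟩ _ ⟨r, hr, rfl⟩ hne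
        have hpr : p ≠ r := fun h => hne (by rw [h])
        have h1 := hP1 p hp r hr hpr
        have h2 : ‖p - r‖ ≤ ‖f p - f r‖ + η / 4 := by
          have e1 : p - r = ((f p - f r : X) : Completion X) + (p - f p) - (r - f r) := by
            rw [Completion.coe_sub]
            abel
          rw [e1]
          have h3 := norm_sub_le (((f p - f r : X) : Completion X) + (p - f p)) (r - f r)
          have h4 := norm_add_le ((f p - f r : X) : Completion X) (p - f p)
          rw [Completion.norm_coe] at h4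
          have h5 := hf p
          have h6 := hf r
          linarith
        change 2 ≤ ‖(2 / d) • f p - (2 / d) • f r‖
        rw [← smul_sub, norm_smul, Real.norm_eq_abs, abs_of_pos (by positivity),
          div_mul_eq_mul_div, le_div_iff₀ hd0]
        linarith
      · obtain ⟨p, hp, hxp⟩ := hP2 (((d / 2) • x : X) : Completion X) (η / 8) (by positivity)
        refine ⟨_, ⟨p, hp, rfl⟩, ?_⟩
        have h1 : ‖(d / 2) • x - f p‖ ≤ ρ + η / 4 := by
          rw [← Completion.norm_coe]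
          have e1 : (((d / 2) • x - f p : X) : Completion X) =
            ((((d / 2) • x : X) : Completion X) - p) + (p - f p) := by
            rw [Completion.coe_sub]
            abel
          rw [e1]
          have h3 := norm_add_le ((((d / 2) • x : X) : Completion X) - p) (p - f p)
          have h4 := hf p
          linarith
        have e2 : x - (2 / d) • f p = (2 / d) • ((d / 2) • x - f p) := by
          rw [smul_sub, smul_smul]
          congr 1
          rw [div_mul_div_comm, mul_comm 2 d, div_self (by positivity), one_smul]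
        change ‖x - (2 / d) • f p‖ ≤ _
        rw [e2, norm_smul, Real.norm_eq_abs, abs_of_pos (by positivity)]
        exact mul_le_mul_of_nonneg_left h1 (by positivity)
  exact hle.trans_lt hr

end Pool.Agent.K9h84.PC
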